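import Pool.Agent.W805.LR.Stm

/-!
# The stage lemma
-/

set_option autoImplicit false
set_option linter.unusedSectionVars false

namespace Pool.Agent.W368.LR

open Finset Equiv Pool.Agent.W805.LR

/-! ## Indicators -/

section ind

open Classical in
/-- indicator -/
noncomputable def ind (P : Prop) : ℝ := if P then 1 else 0

theorem ind_nonneg (P : Prop) : 0 ≤ ind P := by
  unfold ind
  split_ifs <;> norm_num

theorem ind_le_one (P : Prop) : ind P ≤ 1 := by
  unfold ind
  split_ifs <;> norm_num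

theorem ind_true {P : Prop} (h : P) : ind P = 1 := if_pos h

theorem ind_false {P : Prop} (h : ¬ P) : ind P = 0 := if_neg h

theorem ind_mono {P Q : Prop} (h : P → Q) : ind P ≤ ind Q := by
  by_cases hP : P
  · rw [ind_true hP, ind_true (h hP)]
  · rw [ind_false hP]
    exact ind_nonneg _

theorem ind_and {P Q : Prop} : ind (P ∧ Q) = ind P * ind Q := by
  by_cases hP : P <;> by_cases hQ : Q
  · rw [ind_true hP, ind_true hQ, ind_true ⟨hP, hQ⟩, one_mul]
  · rw [ind_true hP, ind_false hQ, ind_false (fun h => hQ h.2), mul_zero]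
  · rw [ind_false hP, ind_false (fun h => hP h.1), zero_mul]
  · rw [ind_false hP, ind_false (fun h => hP h.1), zero_mul]

variable {V : Type} [Fintype V]

theorem cnt_eq (P : V → Prop) : cnt P = ∑ v, ind (P v) := rfl

theorem cnt_nonneg (P : V → Prop) : 0 ≤ cnt P := sum_nonneg fun _ _ => ind_nonneg _

theorem cnt_mono {P Q : V → Prop} (h : ∀ v, P v → Q v) : cnt P ≤ cnt Q :=
  sum_le_sum fun v _ => ind_mono (h v)

theorem cnt_perm (P : V → Prop) (c : Perm V) : cnt (fun v => P (c v)) = cnt P := by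
  rw [cnt_eq, cnt_eq]
  exact Equiv.sum_comp c (fun v => ind (P v))

end ind

/-! ## Expectations -/

section ev

variable {V K : Type} [Fintype V] [DecidableEq V] [Fintype K] [DecidableEq K]
  {W : (K → Option (V × V)) → ℝ}

theorem ev_mono (hW : ∀ ω, 0 ≤ W ω) {F G : (K → Option (V × V)) → ℝ}
    (h : ∀ ω, W ω ≠ 0 → F ω ≤ G ω) : ev W F ≤ ev W G := by
  refine sum_le_sum fun ω _ => ?_
  by_cases hω : W ω = 0
  · rw [hω, zero_mul, zero_mul]
  · exact mul_le_mul_of_nonneg_left (h ω hω) (hW ω)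

theorem ev_nonneg (hW : ∀ ω, 0 ≤ W ω) {F : (K → Option (V × V)) → ℝ} (h : ∀ ω, 0 ≤ F ω) :
    0 ≤ ev W F := sum_nonneg fun ω _ => mul_nonneg (hW ω) (h ω)

theorem ev_add (F G : (K → Option (V × V)) → ℝ) :
    ev W (fun ω => F ω + G ω) = ev W F + ev W G := by
  simp only [ev, mul_add, sum_add_distrib]

theorem ev_sub (F G : (K → Option (V × V)) → ℝ) :
    ev W (fun ω => F ω - G ω) = ev W F - ev W G := by
  simp only [ev, mul_sub, sum_sub_distrib]

theorem ev_const_mul (c : ℝ) (F : (K → Option (V × V)) → ℝ) :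
    ev W (fun ω => c * F ω) = c * ev W F := by
  simp only [ev, mul_sum]
  exact sum_congr rfl fun ω _ => by ring

theorem ev_sum {ι : Type} (s : Finset ι) (F : ι → (K → Option (V × V)) → ℝ) :
    ev W (fun ω => ∑ j ∈ s, F j ω) = ∑ j ∈ s, ev W (F j) := by
  simp only [ev, mul_sum]
  exact sum_comm

/-- unnormalised expectation over the configurations with empty slot `k` -/
noncomputable def evN (W : (K → Option (V × V)) → ℝ) (k : K)
    (F : (K → Option (V × V)) → ℝ) : ℝ :=
  ∑ ω : {ω : K → Option (V × V) // ω k = none}, W ω.1 * F ω.1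

theorem sum_split (k : K) (H : (K → Option (V × V)) → ℝ) :
    ∑ ω, H ω = ∑ ω : {ω : K → Option (V × V) // ω k = none},
      (H ω.1 + ∑ x, ∑ y, H (Function.update ω.1 k (some (x, y)))) := by
  let e : {ω : K → Option (V × V) // ω k = none} × Option (V × V) ≃ (K → Option (V × V)) :=
    { toFun := fun p => Function.update p.1.1 k p.2
      invFun := fun ω => (⟨Function.update ω k none, by simp⟩, ω k)
      left_inv := by
        rintro ⟨⟨ω, hω⟩, o⟩
        simp only [Prod.mk.injEq]
        constructor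
        · apply Subtype.ext
          simp only [Function.update_idem]
          rw [← hω, Function.update_eq_self]
        · simp
      right_inv := by
        intro ω
        simp }
  rw [← e.sum_comp, Fintype.sum_prod_type]
  refine sum_congr rfl fun ω _ => ?_
  rw [Fintype.sum_option, Fintype.sum_prod_type]
  congr 2
  exact Function.update_eq_self_iff.2 ω.2.symm

/-- the value of `F x y` if the slot `k` is `(x, y)` -/
def slotF (k : K) (F : V → V → (K → Option (V × V)) → ℝ) (ω : K → Option (V × V)) : ℝ :=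
  match ω k with
  | none => 0
  | some e => F e.1 e.2 ω

theorem slotF_none {k : K} {F : V → V → (K → Option (V × V)) → ℝ} {ω : K → Option (V × V)}
    (h : ω k = none) : slotF k F ω = 0 := by
  unfold slotF
  rw [h]

theorem slotF_some {k : K} {F : V → V → (K → Option (V × V)) → ℝ} {ω : K → Option (V × V)}
    {x y : V} (h : ω k = some (x, y)) : slotF k F ω = F x y ω := by
  unfold slotF
  rw [h]

theorem ev_slotF (k : K) {F : V → V → (K → Option (V × V)) → ℝ}
    (hF : ∀ x y ω o, F x y (Function.update ω k o) = F x y ω) :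
    ev W (slotF k F) = ∑ ω : {ω : K → Option (V × V) // ω k = none},
      ∑ x, ∑ y, W (Function.update ω.1 k (some (x, y))) * F x y ω.1 := by
  unfold ev
  rw [sum_split k]
  refine sum_congr rfl fun ω _ => ?_
  rw [slotF_none ω.2, mul_zero, zero_add]
  refine sum_congr rfl fun x _ => sum_congr rfl fun y _ => ?_
  rw [slotF_some (x := x) (y := y) (by simp), hF]

variable {ι : Type} {Θ : ℝ} {w : V → V → ℝ} {blk : V → ι} {M : ℕ} {a : Fin M → K}
  {g : ℕ → (K → Option (V × V)) → Perm V} {c : Fin M → (K → Option (V × V)) → Perm V}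

theorem upd_none {k : K} (ω : {ω : K → Option (V × V) // ω k = none}) :
    Function.update ω.1 k none = ω.1 := Function.update_eq_self_iff.2 ω.2.symm

theorem evN_le (hst : IsStage Θ W w blk M a g c) (k : K) {G : (K → Option (V × V)) → ℝ}
    (hG : ∀ ω, 0 ≤ G ω) : evN W k G ≤ ev W G := by
  unfold ev evN
  rw [sum_split k]
  refine sum_le_sum fun ω _ => ?_
  refine le_add_of_nonneg_right ?_
  exact sum_nonneg fun x _ => sum_nonneg fun y _ => mul_nonneg (hst.W_nonneg _) (hG _)

theorem slot_up (hst : IsStage Θ W w blk M a g c) (hΘ : 0 ≤ Θ) (i : Fin M)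
    {F : V → V → (K → Option (V × V)) → ℝ} (hF0 : ∀ x y ω, 0 ≤ F x y ω)
    (hF : ∀ x y ω o, F x y (Function.update ω (a i) o) = F x y ω) :
    ev W (slotF (a i) F) ≤ Θ * ∑ x, ∑ y, w x y * ev W (F x y) := by
  rw [ev_slotF (a i) hF]
  calc ∑ ω : {ω : K → Option (V × V) // ω (a i) = none},
      ∑ x, ∑ y, W (Function.update ω.1 (a i) (some (x, y))) * F x y ω.1
      ≤ ∑ ω : {ω : K → Option (V × V) // ω (a i) = none},
        ∑ x, ∑ y, Θ * w x y * W ω.1 * F x y ω.1 := by
        refine sum_le_sum fun ω _ => sum_le_sum fun x _ => sum_le_sum fun y _ => ?_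
        refine mul_le_mul_of_nonneg_right ?_ (hF0 _ _ _)
        have := hst.up i ω.1 x y
        rwa [upd_none] at this
    _ = Θ * ∑ x, ∑ y, w x y * evN W (a i) (F x y) := by
        rw [sum_comm, mul_sum]
        refine sum_congr rfl fun x _ => ?_
        rw [sum_comm, mul_sum]
        refine sum_congr rfl fun y _ => ?_
        rw [evN, mul_sum, mul_sum]
        exact sum_congr rfl fun ω _ => by ring
    _ ≤ Θ * ∑ x, ∑ y, w x y * ev W (F x y) := by
        refine mul_le_mul_of_nonneg_left ?_ hΘ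
        refine sum_le_sum fun x _ => sum_le_sum fun y _ => ?_
        exact mul_le_mul_of_nonneg_left (evN_le hst _ (hF0 x y)) (hst.w_nonneg x y)

theorem slot_low (hst : IsStage Θ W w blk M a g c) (i : Fin M)
    {F : V → V → (K → Option (V × V)) → ℝ} (hF0 : ∀ x y ω, 0 ≤ F x y ω)
    (hF : ∀ x y ω o, F x y (Function.update ω (a i) o) = F x y ω) :
    ∑ x, ∑ y, w x y * evN W (a i) (F x y) ≤ Θ * ev W (slotF (a i) F) := by
  rw [ev_slotF (a i) hF]
  calc ∑ x, ∑ y, w x y * evN W (a i) (F x y)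
      = ∑ ω : {ω : K → Option (V × V) // ω (a i) = none},
        ∑ x, ∑ y, w x y * W ω.1 * F x y ω.1 := by
        symm
        rw [sum_comm]
        refine sum_congr rfl fun x _ => ?_
        rw [sum_comm]
        refine sum_congr rfl fun y _ => ?_
        rw [evN, mul_sum]
        exact sum_congr rfl fun ω _ => by ring
    _ ≤ ∑ ω : {ω : K → Option (V × V) // ω (a i) = none},
        ∑ x, ∑ y, Θ * W (Function.update ω.1 (a i) (some (x, y))) * F x y ω.1 := by
        refine sum_le_sum fun ω _ => sum_le_sum fun x _ => sum_le_sum fun y _ => ?_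
        refine mul_le_mul_of_nonneg_right ?_ (hF0 _ _ _)
        have := hst.low i ω.1 x y
        rwa [upd_none] at this
    _ = _ := by
        rw [mul_sum]
        refine sum_congr rfl fun ω _ => ?_
        rw [mul_sum]
        refine sum_congr rfl fun x _ => ?_
        rw [mul_sum]
        exact sum_congr rfl fun y _ => by ring

theorem ev_le_evN (hst : IsStage Θ W w blk M a g c) (i : Fin M)
    (hw : (Θ * ∑ x, ∑ y, w x y) ≤ 1) {G : (K → Option (V × V)) → ℝ} (hG0 : ∀ ω, 0 ≤ G ω)
    (hG : ∀ ω o, G (Function.update ω (a i) o) = G ω) : ev W G ≤ 2 * evN W (a i) G := by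
  unfold ev evN
  rw [sum_split (a i), mul_sum]
  refine sum_le_sum fun ω _ => ?_
  have h1 : ∑ x, ∑ y, W (Function.update ω.1 (a i) (some (x, y))) *
      G (Function.update ω.1 (a i) (some (x, y))) ≤ (Θ * ∑ x, ∑ y, w x y) * (W ω.1 * G ω.1) := by
    rw [mul_sum, sum_mul]
    refine sum_le_sum fun x _ => ?_
    rw [mul_sum, sum_mul]
    refine sum_le_sum fun y _ => ?_
    rw [hG, ← mul_assoc]
    refine mul_le_mul_of_nonneg_right ?_ (hG0 _)
    have := hst.up i ω.1 x y
    rwa [upd_none] at this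
  have h2 : 0 ≤ W ω.1 * G ω.1 := mul_nonneg (hst.W_nonneg _) (hG0 _)
  nlinarith

/-! ## Damage -/

theorem step_some (hst : IsStage Θ W w blk M a g c) (i : Fin M) {ω : K → Option (V × V)} {x y : V}
    (h : ω (a i) = some (x, y)) :
    g (i.val + 1) ω = swap (c i ω x) (c i ω y) * g i.val ω := by
  rw [hst.step i ω, h, swap_apply_apply]
  rfl

theorem step_none (hst : IsStage Θ W w blk M a g c) (i : Fin M) {ω : K → Option (V × V)}
    (h : ω (a i) = none) : g (i.val + 1) ω = g i.val ω := by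
  rw [hst.step i ω, h]
  simp [tau]

theorem damage (h2 : S_damage) (h3 : S_near) (hst : IsStage Θ W w blk M a g c) (hΘ : 0 ≤ Θ)
    {s s' m f : ℝ} {w2 : V → V → ℝ} (hs : 0 ≤ s) (hss : s ≤ s') (hm : 0 ≤ m)
    (hw2 : ∀ x y, 0 ≤ w2 x y) (hww : ∀ x y, w x y ≤ m + w2 x y)
    (hf : (∑ x, ∑ y, w2 x y) ≤ Fintype.card V * f) (i : Fin M) :
    ev W (fun ω => cnt fun v => s ≤ len (g i.val ω) v ∧ len (g (i.val + 1) ω) v < s) ≤
      Θ * (2 * s') * (Fintype.card V * (2 * s' * m + f)) * ev W (fun _ => 1) := by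
  set F : V → V → (K → Option (V × V)) → ℝ := fun x y ω =>
    2 * s * ind (near (g i.val ω) s (c i ω x) (c i ω y)) with hF
  have hF0 : ∀ x y ω, 0 ≤ F x y ω := fun x y ω =>
    mul_nonneg (by linarith) (ind_nonneg _)
  have hFi : ∀ x y ω o, F x y (Function.update ω (a i) o) = F x y ω := by
    intro x y ω o
    simp only [hF, hst.g_indep i i.val le_rfl, hst.c_indep i]
  have hp : ∀ ω, W ω ≠ 0 →
      (cnt fun v => s ≤ len (g i.val ω) v ∧ len (g (i.val + 1) ω) v < s) ≤ slotF (a i) F ω := by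
    intro ω _
    rcases h : ω (a i) with _ | ⟨x, y⟩
    · rw [slotF_none h, cnt_eq]
      refine sum_nonpos fun v _ => ?_
      rw [step_none hst i h, ind_false]
      rintro ⟨h4, h5⟩
      exact absurd h4 (not_le.2 h5)
    · rw [slotF_some h, step_some hst i h]
      obtain ⟨h4, h5⟩ := h2 V (g i.val ω) (c i ω x) (c i ω y) s hs
      by_cases hn : near (g i.val ω) s (c i ω x) (c i ω y)
      · simp only [hF]
        rw [ind_true hn, mul_one]
        exact h4
      · refine le_trans (le_of_eq ?_) (hF0 x y ω)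
        rw [cnt_eq]
        refine sum_eq_zero fun v _ => ?_
        rw [ind_false]
        rintro ⟨h6, h7⟩
        exact hn (h5 v h6 h7)
  have hn0 : (0 : ℝ) ≤ Fintype.card V := Nat.cast_nonneg _
  have hf0 : 0 ≤ (Fintype.card V : ℝ) * f :=
    le_trans (sum_nonneg fun x _ => sum_nonneg fun y _ => hw2 x y) hf
  have hpt : ∀ ω, W ω ≠ 0 → ∑ x, ∑ y, w x y * F x y ω ≤
      2 * s' * (Fintype.card V * (2 * s' * m + f)) := by
    intro ω _
    have h4 : ∀ x, ∑ y, w x y * F x y ω ≤ 2 * s * (m * (2 * s) + ∑ y, w2 x y) := by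
      intro x
      calc ∑ y, w x y * F x y ω
          ≤ ∑ y, 2 * s * (m * ind (near (g i.val ω) s (c i ω x) (c i ω y)) + w2 x y) := by
            refine sum_le_sum fun y _ => ?_
            have h5 := hww x y
            have h6 := ind_nonneg (near (g i.val ω) s (c i ω x) (c i ω y))
            have h7 := ind_le_one (near (g i.val ω) s (c i ω x) (c i ω y))
            have h8 : w x y * ind (near (g i.val ω) s (c i ω x) (c i ω y)) ≤
                m * ind (near (g i.val ω) s (c i ω x) (c i ω y)) + w2 x y := by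
              calc w x y * ind (near (g i.val ω) s (c i ω x) (c i ω y))
                  ≤ (m + w2 x y) * ind (near (g i.val ω) s (c i ω x) (c i ω y)) :=
                    mul_le_mul_of_nonneg_right h5 h6
                _ = m * ind (near (g i.val ω) s (c i ω x) (c i ω y)) +
                    w2 x y * ind (near (g i.val ω) s (c i ω x) (c i ω y)) := by ring
                _ ≤ _ := by
                    have := mul_le_mul_of_nonneg_left h7 (hw2 x y)
                    linarith
            simp only [hF]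
            have h9 := mul_le_mul_of_nonneg_left h8 (by linarith : 0 ≤ 2 * s)
            linarith
        _ = 2 * s * (m * (cnt fun y => near (g i.val ω) s (c i ω x) (c i ω y)) + ∑ y, w2 x y) := by
            rw [cnt_eq, ← mul_sum, sum_add_distrib, ← mul_sum]
        _ ≤ 2 * s * (m * (2 * s) + ∑ y, w2 x y) := by
            rw [cnt_perm (fun y => near (g i.val ω) s (c i ω x) y) (c i ω)]
            have h5 := h3 V (g i.val ω) s (c i ω x) hs
            have h6 := mul_le_mul_of_nonneg_left h5 hm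
            refine mul_le_mul_of_nonneg_left ?_ (by linarith)
            linarith
    calc ∑ x, ∑ y, w x y * F x y ω ≤ ∑ x, 2 * s * (m * (2 * s) + ∑ y, w2 x y) :=
          sum_le_sum fun x _ => h4 x
      _ = 2 * s * (Fintype.card V * (m * (2 * s)) + ∑ x, ∑ y, w2 x y) := by
          rw [← mul_sum, sum_add_distrib, sum_const, card_univ, nsmul_eq_mul]
      _ ≤ 2 * s * (Fintype.card V * (m * (2 * s)) + Fintype.card V * f) :=
          mul_le_mul_of_nonneg_left (by linarith) (by linarith)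
      _ ≤ 2 * s' * (Fintype.card V * (m * (2 * s')) + Fintype.card V * f) := by
          have h5 : (Fintype.card V : ℝ) * (m * (2 * s)) ≤ Fintype.card V * (m * (2 * s')) :=
            mul_le_mul_of_nonneg_left (mul_le_mul_of_nonneg_left (by linarith) hm) hn0
          have h6 : 0 ≤ (Fintype.card V : ℝ) * (m * (2 * s)) := by positivity
          exact mul_le_mul (by linarith) (by linarith) (by linarith) (by linarith)
      _ = _ := by ring
  calc ev W (fun ω => cnt fun v => s ≤ len (g i.val ω) v ∧ len (g (i.val + 1) ω) v < s)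
      ≤ ev W (slotF (a i) F) := ev_mono hst.W_nonneg hp
    _ ≤ Θ * ∑ x, ∑ y, w x y * ev W (F x y) := slot_up hst hΘ i hF0 hFi
    _ = Θ * ev W (fun ω => ∑ x, ∑ y, w x y * F x y ω) := by
        congr 1
        rw [ev_sum]
        refine sum_congr rfl fun x _ => ?_
        rw [ev_sum]
        exact sum_congr rfl fun y _ => (ev_const_mul _ _).symm
    _ ≤ Θ * ev W (fun _ => 2 * s' * (Fintype.card V * (2 * s' * m + f)) * 1) := by
        refine mul_le_mul_of_nonneg_left (ev_mono hst.W_nonneg fun ω hω => ?_) hΘ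
        rw [mul_one]
        exact hpt ω hω
    _ = _ := by
        rw [ev_const_mul]
        ring

/-! ## Alive points -/

theorem blk_zpow {p : Perm V} (h : ∀ v, blk (p v) = blk v) (v : V) (n : ℤ) :
    blk ((p ^ n) v) = blk v := by
  have hinv : ∀ v, blk (p⁻¹ v) = blk v := by
    intro v
    have := h (p⁻¹ v)
    rw [← this]
    congr 1
    simp
  induction n using Int.induction_on with
  | zero => simp
  | succ n ih => rw [add_comm, zpow_add, zpow_one, Perm.mul_apply, h, ih]
  | pred n ih => rw [sub_eq_neg_add, zpow_add, zpow_neg_one, Perm.mul_apply, hinv, ih]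

theorem blk_same {p : Perm V} (h : ∀ v, blk (p v) = blk v) {u v : V} (huv : p.SameCycle u v) :
    blk v = blk u := by
  obtain ⟨n, hn⟩ := huv
  rw [← hn, blk_zpow h]

theorem len_same {p : Perm V} {u v : V} (huv : p.SameCycle u v) : len p u = len p v := by
  unfold len
  congr 1
  funext z
  exact propext ⟨fun h => huv.symm.trans h, fun h => huv.trans h⟩

/-- the size of the block -/
noncomputable def bs (blk : V → ι) (v : V) : ℝ := cnt fun u => blk u = blk v

/-- the mass of the block in long cycles -/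
noncomputable def ms (blk : V → ι) (s : ℝ) (p : Perm V) (v : V) : ℝ :=
  cnt fun u => blk u = blk v ∧ s ≤ len p u

/-- alive at time `j` -/
def AL (blk : V → ι) (s1 s2 s' δ : ℝ) (p : Perm V) (v : V) : Prop :=
  s1 ≤ len p v ∧ len p v < s' ∧ δ * bs blk v ≤ ms blk s2 p v

/-- alive up to time `i` -/
noncomputable def UU (g : ℕ → (K → Option (V × V)) → Perm V) (blk : V → ι) (s1 s2 s' δ : ℝ)
    (i : ℕ) (v : V) (ω : K → Option (V × V)) : ℝ :=
  ind (∀ j, j ≤ i → AL blk s1 s2 s' δ (g j ω) v)

theorem alive_step (h1 : S_merge) (hst : IsStage Θ W w blk M a g c) (hΘ : 1 ≤ Θ)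
    {s1 s2 s' δ κ b : ℝ} (hs1 : 0 < s1) (hs1' : s1 ≤ s') (hs12 : s' ≤ s1 + s2)
    (hδ : 0 < δ) (hκ : 0 ≤ κ) (hκw : ∀ x y, x ≠ y → blk x = blk y → κ ≤ w x y)
    (hb : ∀ v, b ≤ bs blk v) (hsb : s' ≤ δ * b / 2) (hw : (Θ * ∑ x, ∑ y, w x y) ≤ 1)
    (i : Fin M) (v : V) :
    ev W (UU g blk s1 s2 s' δ (i.val + 1) v) ≤
      Real.exp (-(κ * s1 * δ * b / (4 * Θ))) * ev W (UU g blk s1 s2 s' δ i.val v) := by
  have hb0 : 0 < δ * b := by linarith
  set U := UU g blk s1 s2 s' δ i.val v with hU
  set E : V → V → (K → Option (V × V)) → Prop := fun x y ω =>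
    (g i.val ω).SameCycle v (c i ω x) ∧ (blk (c i ω y) = blk v ∧ s2 ≤ len (g i.val ω) (c i ω y) ∧
      ¬ (g i.val ω).SameCycle v (c i ω y)) with hE
  set F : V → V → (K → Option (V × V)) → ℝ := fun x y ω => U ω * ind (E x y ω) with hF
  have hU0 : ∀ ω, 0 ≤ U ω := fun ω => ind_nonneg _
  have hF0 : ∀ x y ω, 0 ≤ F x y ω := fun x y ω => mul_nonneg (hU0 ω) (ind_nonneg _)
  have hUi : ∀ ω o, U (Function.update ω (a i) o) = U ω := by
    intro ω o
    simp only [hU, UU]
    congr 1
    apply propext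
    refine forall_congr' fun j => ?_
    refine imp_congr_right fun hj => ?_
    rw [hst.g_indep i j hj]
  have hFi : ∀ x y ω o, F x y (Function.update ω (a i) o) = F x y ω := by
    intro x y ω o
    simp only [hF, hE, hUi, hst.g_indep i i.val le_rfl, hst.c_indep i]
  -- first pointwise inequality
  have hp1 : ∀ ω, W ω ≠ 0 → UU g blk s1 s2 s' δ (i.val + 1) v ω ≤ U ω - slotF (a i) F ω := by
    intro ω _
    have hle : slotF (a i) F ω ≤ U ω := by
      rcases h : ω (a i) with _ | ⟨x, y⟩
      · rw [slotF_none h]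
        exact hU0 ω
      · rw [slotF_some h]
        exact mul_le_of_le_one_right (hU0 ω) (ind_le_one _)
    by_cases hA : ∀ j, j ≤ i.val + 1 → AL blk s1 s2 s' δ (g j ω) v
    · have hUt : U ω = 1 := ind_true fun j hj => hA j (by omega)
      have h0 : slotF (a i) F ω = 0 := by
        rcases h : ω (a i) with _ | ⟨x, y⟩
        · exact slotF_none h
        · rw [slotF_some h]
          simp only [hF]
          rw [ind_false, mul_zero]
          rintro ⟨h4, h5, h6, h7⟩
          have h8 := (hA (i.val + 1) le_rfl).2.1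
          rw [step_some hst i h] at h8
          have h9 : ¬ (g i.val ω).SameCycle (c i ω x) (c i ω y) := fun hh => h7 (h4.trans hh)
          have h10 := (h1 V (g i.val ω) (c i ω x) (c i ω y) h9).1 v (Or.inl h4.symm)
          rw [h10, ← len_same h4] at h8
          have h11 := (hA i.val (by omega)).1
          linarith
      rw [hUt, h0, sub_zero]
      exact ind_le_one _
    · have : UU g blk s1 s2 s' δ (i.val + 1) v ω = 0 := ind_false hA
      rw [this]
      linarith
  -- second pointwise inequality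
  have hp2 : ∀ ω, W ω ≠ 0 → κ * s1 * (δ * b / 2) * U ω ≤ ∑ x, ∑ y, w x y * F x y ω := by
    intro ω hω
    by_cases hA : ∀ j, j ≤ i.val → AL blk s1 s2 s' δ (g j ω) v
    · have hUt : U ω = 1 := ind_true hA
      obtain ⟨ha1, ha2, ha3⟩ := hA i.val le_rfl
      have hgb := hst.g_blk ω hω i.val i.isLt.le
      have hcb := hst.c_blk ω hω i
      set p := g i.val ω with hpp
      set Q : V → Prop := fun u => blk u = blk v ∧ s2 ≤ len p u ∧ ¬ p.SameCycle v u with hQ
      have h4 : κ * (len p v * cnt Q) ≤ ∑ x, ∑ y, w x y * F x y ω := by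
        have h5 : len p v * cnt Q = ∑ x, ∑ y, ind (E x y ω) := by
          have h6 : len p v = ∑ x, ind (p.SameCycle v (c i ω x)) := by
            unfold len
            rw [← cnt_perm _ (c i ω), cnt_eq]
          have h7 : cnt Q = ∑ y, ind (Q (c i ω y)) := by
            rw [← cnt_perm _ (c i ω), cnt_eq]
          rw [h6, h7, sum_mul_sum]
          refine sum_congr rfl fun x _ => sum_congr rfl fun y _ => ?_
          exact (ind_and (P := p.SameCycle v (c i ω x)) (Q := Q (c i ω y))).symm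
        rw [h5, mul_sum]
        refine sum_le_sum fun x _ => ?_
        rw [mul_sum]
        refine sum_le_sum fun y _ => ?_
        simp only [hF, hUt, one_mul]
        by_cases hExy : E x y ω
        · rw [ind_true hExy, mul_one, mul_one]
          obtain ⟨e1, e2, e3, e4⟩ := hExy
          refine hκw x y ?_ ?_
          · rintro rfl
            exact e4 e1
          · rw [← hcb x, ← hcb y, e2]
            exact blk_same hgb e1
        · rw [ind_false hExy, mul_zero, mul_zero]
      have h5 : ms blk s2 p v ≤ cnt Q + len p v := by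
        have e1 : ms blk s2 p v = ∑ u, ind (blk u = blk v ∧ s2 ≤ len p u) := rfl
        have e2 : len p v = ∑ u, ind (p.SameCycle v u) := rfl
        have e3 : cnt Q = ∑ u, ind (Q u) := rfl
        rw [e1, e2, e3, ← sum_add_distrib]
        refine sum_le_sum fun u _ => ?_
        by_cases h6 : blk u = blk v ∧ s2 ≤ len p u
        · by_cases h7 : p.SameCycle v u
          · rw [ind_true h6, ind_true h7]
            have := ind_nonneg (Q u)
            linarith
          · rw [ind_true h6, ind_true (show Q u from ⟨h6.1, h6.2, h7⟩)]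
            have := ind_nonneg (p.SameCycle v u)
            linarith
        · rw [ind_false h6]
          exact add_nonneg (ind_nonneg _) (ind_nonneg _)
      have h6 : δ * b ≤ δ * bs blk v := mul_le_mul_of_nonneg_left (hb v) hδ.le
      have h7 : δ * b / 2 ≤ cnt Q := by linarith
      have h8 : s1 * (δ * b / 2) ≤ len p v * cnt Q := mul_le_mul ha1 h7 (by linarith)
        (by linarith)
      rw [hUt, mul_one]
      calc κ * s1 * (δ * b / 2) = κ * (s1 * (δ * b / 2)) := by ring
        _ ≤ κ * (len p v * cnt Q) := mul_le_mul_of_nonneg_left h8 hκ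
        _ ≤ _ := h4
    · have hUf : U ω = 0 := ind_false hA
      rw [hUf, mul_zero]
      exact sum_nonneg fun x _ => sum_nonneg fun y _ => mul_nonneg (hst.w_nonneg x y) (hF0 x y ω)
  have hΘ0 : 0 < Θ := by linarith
  have h4 : ev W (UU g blk s1 s2 s' δ (i.val + 1) v) ≤ ev W U - ev W (slotF (a i) F) := by
    rw [← ev_sub]
    exact ev_mono hst.W_nonneg hp1
  have h5 : κ * s1 * (δ * b / 2) * evN W (a i) U ≤ ∑ x, ∑ y, w x y * evN W (a i) (F x y) := by
    have h6 : ∑ x, ∑ y, w x y * evN W (a i) (F x y) =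
        ∑ ω : {ω : K → Option (V × V) // ω (a i) = none},
          W ω.1 * ∑ x, ∑ y, w x y * F x y ω.1 := by
      simp only [mul_sum]
      symm
      rw [sum_comm]
      refine sum_congr rfl fun x _ => ?_
      rw [sum_comm]
      refine sum_congr rfl fun y _ => ?_
      rw [evN, mul_sum]
      exact sum_congr rfl fun ω _ => by ring
    rw [h6, evN, mul_sum]
    refine sum_le_sum fun ω _ => ?_
    by_cases hω : W ω.1 = 0
    · rw [hω, zero_mul, zero_mul, mul_zero]
    · have h7 := mul_le_mul_of_nonneg_left (hp2 ω.1 hω) (hst.W_nonneg ω.1)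
      linarith
  have h6 := slot_low hst i hF0 hFi
  have h7 := ev_le_evN hst i hw hU0 hUi
  have h8 : 0 ≤ ev W U := ev_nonneg hst.W_nonneg hU0
  have h9 : κ * s1 * δ * b / (4 * Θ) * ev W U ≤ ev W (slotF (a i) F) := by
    have h10 : κ * s1 * (δ * b / 2) * (ev W U / 2) ≤ Θ * ev W (slotF (a i) F) := by
      have h11 : κ * s1 * (δ * b / 2) * (ev W U / 2) ≤ κ * s1 * (δ * b / 2) * evN W (a i) U :=
        mul_le_mul_of_nonneg_left (by linarith) (by positivity)
      linarith
    have h12 : κ * s1 * δ * b / (4 * Θ) * ev W U =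
        (κ * s1 * (δ * b / 2) * (ev W U / 2)) / Θ := by
      field_simp
      ring
    rw [h12, div_le_iff₀ hΘ0]
    linarith
  have h10 := Real.one_sub_le_exp_neg (κ * s1 * δ * b / (4 * Θ))
  calc ev W (UU g blk s1 s2 s' δ (i.val + 1) v)
      ≤ (1 - κ * s1 * δ * b / (4 * Θ)) * ev W U := by linarith
    _ ≤ _ := mul_le_mul_of_nonneg_right h10 h8

theorem alive (h1 : S_merge) (hst : IsStage Θ W w blk M a g c) (hΘ : 1 ≤ Θ)
    {s1 s2 s' δ κ b : ℝ} (hs1 : 0 < s1) (hs1' : s1 ≤ s') (hs12 : s' ≤ s1 + s2)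
    (hδ : 0 < δ) (hκ : 0 ≤ κ) (hκw : ∀ x y, x ≠ y → blk x = blk y → κ ≤ w x y)
    (hb : ∀ v, b ≤ bs blk v) (hsb : s' ≤ δ * b / 2) (hw : (Θ * ∑ x, ∑ y, w x y) ≤ 1)
    (v : V) :
    ev W (UU g blk s1 s2 s' δ M v) ≤
      Real.exp (-(M * κ * s1 * δ * b / (4 * Θ))) * ev W (fun _ => 1) := by
  have h2 : ∀ i : ℕ, i ≤ M → ev W (UU g blk s1 s2 s' δ i v) ≤
      Real.exp (-(κ * s1 * δ * b / (4 * Θ))) ^ i * ev W (fun _ => 1) := by
    intro i
    induction i with
    | zero =>
      intro _
      rw [pow_zero, one_mul]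
      exact ev_mono hst.W_nonneg fun ω _ => ind_le_one _
    | succ i ih =>
      intro hi
      have h3 := alive_step h1 hst hΘ hs1 hs1' hs12 hδ hκ hκw hb hsb hw ⟨i, hi⟩ v
      refine h3.trans ?_
      have h4 := mul_le_mul_of_nonneg_left (ih (by omega))
        (Real.exp_pos (-(κ * s1 * δ * b / (4 * Θ)))).le
      refine h4.trans (le_of_eq ?_)
      rw [pow_succ']
      ring
  have h3 := h2 M le_rfl
  rw [← Real.exp_nat_mul] at h3
  have h4 : (M : ℝ) * -(κ * s1 * δ * b / (4 * Θ)) = -(M * κ * s1 * δ * b / (4 * Θ)) := by ring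
  rwa [h4] at h3

/-! ## The pointwise inequality -/

theorem no_damage {p : ℕ → Perm V} {s : ℝ} {v : V} {M : ℕ}
    (h : ∀ i, i < M → ¬ (s ≤ len (p i) v ∧ len (p (i + 1)) v < s)) {i j : ℕ} (hij : i ≤ j)
    (hj : j ≤ M) (hi : s ≤ len (p i) v) : s ≤ len (p j) v := by
  induction j, hij using Nat.le_induction with
  | base => exact hi
  | succ j hij ih =>
    by_contra hc
    exact h j (by omega) ⟨ih (by omega), not_le.1 hc⟩

theorem bs_pos (blk : V → ι) (v : V) : 0 < bs blk v := by
  unfold bs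
  rw [cnt_eq]
  have h1 : ind (blk v = blk v) ≤ ∑ u, ind (blk u = blk v) :=
    single_le_sum (f := fun u => ind (blk u = blk v)) (fun _ _ => ind_nonneg _) (mem_univ v)
  rw [ind_true rfl] at h1
  linarith

theorem pointwise (p : ℕ → Perm V) (blk : V → ι) {s1 s2 s' δ : ℝ} (hδ : 0 < δ) (M : ℕ) (v : V) :
    ind (s1 ≤ len (p 0) v ∧ len (p M) v < s') ≤
      ∑ i ∈ range M, ind (s1 ≤ len (p i) v ∧ len (p (i + 1)) v < s1) +
      ∑ i ∈ range M, ind (s' ≤ len (p i) v ∧ len (p (i + 1)) v < s') +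
      ind (∀ j, j ≤ M → AL blk s1 s2 s' δ (p j) v) +
      ind (s1 ≤ len (p 0) v ∧ ms blk s2 (p 0) v < 2 * δ * bs blk v) +
      (∑ i ∈ range M, ∑ u, ind (blk u = blk v) * ind (s2 ≤ len (p i) u ∧ len (p (i + 1)) u < s2)) /
        (δ * bs blk v) := by
  have hB := bs_pos blk v
  have t1 : 0 ≤ ∑ i ∈ range M, ind (s1 ≤ len (p i) v ∧ len (p (i + 1)) v < s1) :=
    sum_nonneg fun _ _ => ind_nonneg _
  have t2 : 0 ≤ ∑ i ∈ range M, ind (s' ≤ len (p i) v ∧ len (p (i + 1)) v < s') :=
    sum_nonneg fun _ _ => ind_nonneg _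
  have t3 := ind_nonneg (∀ j, j ≤ M → AL blk s1 s2 s' δ (p j) v)
  have t4 := ind_nonneg (s1 ≤ len (p 0) v ∧ ms blk s2 (p 0) v < 2 * δ * bs blk v)
  have t5' : 0 ≤ ∑ i ∈ range M, ∑ u, ind (blk u = blk v) *
      ind (s2 ≤ len (p i) u ∧ len (p (i + 1)) u < s2) :=
    sum_nonneg fun _ _ => sum_nonneg fun _ _ => mul_nonneg (ind_nonneg _) (ind_nonneg _)
  have t5 : 0 ≤ (∑ i ∈ range M, ∑ u, ind (blk u = blk v) *
      ind (s2 ≤ len (p i) u ∧ len (p (i + 1)) u < s2)) / (δ * bs blk v) :=
    div_nonneg t5' (mul_nonneg hδ.le hB.le)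
  by_cases h0 : s1 ≤ len (p 0) v ∧ len (p M) v < s'
  swap
  · rw [ind_false h0]
    linarith
  rw [ind_true h0]
  -- damage at `v`
  by_cases hd1 : ∃ i, i < M ∧ (s1 ≤ len (p i) v ∧ len (p (i + 1)) v < s1)
  · obtain ⟨i, hi, h1⟩ := hd1
    have h2 : ind (s1 ≤ len (p i) v ∧ len (p (i + 1)) v < s1) ≤
        ∑ i ∈ range M, ind (s1 ≤ len (p i) v ∧ len (p (i + 1)) v < s1) :=
      single_le_sum (f := fun i => ind (s1 ≤ len (p i) v ∧ len (p (i + 1)) v < s1))
        (fun _ _ => ind_nonneg _) (mem_range.2 hi)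
    rw [ind_true h1] at h2
    linarith
  by_cases hd2 : ∃ i, i < M ∧ (s' ≤ len (p i) v ∧ len (p (i + 1)) v < s')
  · obtain ⟨i, hi, h1⟩ := hd2
    have h2 : ind (s' ≤ len (p i) v ∧ len (p (i + 1)) v < s') ≤
        ∑ i ∈ range M, ind (s' ≤ len (p i) v ∧ len (p (i + 1)) v < s') :=
      single_le_sum (f := fun i => ind (s' ≤ len (p i) v ∧ len (p (i + 1)) v < s'))
        (fun _ _ => ind_nonneg _) (mem_range.2 hi)
    rw [ind_true h1] at h2
    linarith
  push Not at hd1 hd2
  have hn1 : ∀ i, i < M → ¬ (s1 ≤ len (p i) v ∧ len (p (i + 1)) v < s1) := fun i hi h =>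
    absurd h.2 (not_lt.2 (hd1 i hi h.1))
  have hn2 : ∀ i, i < M → ¬ (s' ≤ len (p i) v ∧ len (p (i + 1)) v < s') := fun i hi h =>
    absurd h.2 (not_lt.2 (hd2 i hi h.1))
  have hl1 : ∀ i, i ≤ M → s1 ≤ len (p i) v := fun i hi => no_damage hn1 (Nat.zero_le i) hi h0.1
  have hl2 : ∀ i, i ≤ M → len (p i) v < s' := by
    intro i hi
    by_contra hc
    exact absurd h0.2 (not_lt.2 (no_damage hn2 hi le_rfl (not_lt.1 hc)))
  by_cases hr : ms blk s2 (p 0) v < 2 * δ * bs blk v
  · rw [ind_true (show s1 ≤ len (p 0) v ∧ ms blk s2 (p 0) v < 2 * δ * bs blk v from ⟨h0.1, hr⟩)]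
    linarith
  push Not at hr
  by_cases hal : ∀ j, j ≤ M → AL blk s1 s2 s' δ (p j) v
  · rw [ind_true hal]
    linarith
  push Not at hal
  obtain ⟨j, hj, hjal⟩ := hal
  have hmj : ms blk s2 (p j) v < δ * bs blk v := by
    by_contra hc
    exact hjal ⟨hl1 j hj, hl2 j hj, not_lt.1 hc⟩
  -- the lost mass
  have hloss : ms blk s2 (p 0) v - ms blk s2 (p j) v ≤ ∑ i ∈ range M, ∑ u, ind (blk u = blk v) *
      ind (s2 ≤ len (p i) u ∧ len (p (i + 1)) u < s2) := by
    have e1 : ∀ k, ms blk s2 (p k) v = ∑ u, ind (blk u = blk v ∧ s2 ≤ len (p k) u) := fun k => rfl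
    rw [e1, e1, ← sum_sub_distrib, sum_comm]
    refine sum_le_sum fun u _ => ?_
    rw [← mul_sum, ind_and, ind_and, ← mul_sub]
    refine mul_le_mul_of_nonneg_left ?_ (ind_nonneg _)
    have t : 0 ≤ ∑ i ∈ range M, ind (s2 ≤ len (p i) u ∧ len (p (i + 1)) u < s2) :=
      sum_nonneg fun _ _ => ind_nonneg _
    by_cases h1 : s2 ≤ len (p 0) u
    · by_cases h2 : s2 ≤ len (p j) u
      · rw [ind_true h1, ind_true h2, sub_self]
        exact t
      · have h3 : ∃ i, i < M ∧ (s2 ≤ len (p i) u ∧ len (p (i + 1)) u < s2) := by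
          by_contra hc
          push Not at hc
          exact h2 (no_damage (fun i hi h => absurd h.2 (not_lt.2 (hc i hi h.1)))
            (Nat.zero_le j) hj h1)
        obtain ⟨i, hi, h4⟩ := h3
        have h5 : ind (s2 ≤ len (p i) u ∧ len (p (i + 1)) u < s2) ≤
            ∑ i ∈ range M, ind (s2 ≤ len (p i) u ∧ len (p (i + 1)) u < s2) :=
          single_le_sum (f := fun i => ind (s2 ≤ len (p i) u ∧ len (p (i + 1)) u < s2))
            (fun _ _ => ind_nonneg _) (mem_range.2 hi)
        rw [ind_true h4] at h5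
        rw [ind_true h1, ind_false h2, sub_zero]
        exact h5
    · rw [ind_false h1]
      have := ind_nonneg (s2 ≤ len (p j) u)
      linarith
  have h6 : 1 ≤ (∑ i ∈ range M, ∑ u, ind (blk u = blk v) *
      ind (s2 ≤ len (p i) u ∧ len (p (i + 1)) u < s2)) / (δ * bs blk v) := by
    rw [le_div_iff₀ (mul_pos hδ hB)]
    linarith
  linarith

/-- double counting -/
theorem sum_block (blk : V → ι) (X : V → ℝ) :
    ∑ v, (∑ u, ind (blk u = blk v) * X u) / bs blk v = ∑ u, X u := by
  simp only [sum_div]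
  rw [sum_comm]
  refine sum_congr rfl fun u _ => ?_
  have h1 : ∀ v, ind (blk u = blk v) * X u / bs blk v = ind (blk v = blk u) * (X u / bs blk u) := by
    intro v
    by_cases h : blk u = blk v
    · have h2 : bs blk v = bs blk u := by
        unfold bs
        rw [h]
      rw [h2, ind_true h, ind_true h.symm]
      ring
    · rw [ind_false h, ind_false (Ne.symm h)]
      ring
  rw [sum_congr rfl fun v _ => h1 v, ← sum_mul]
  have h3 : ∑ v, ind (blk v = blk u) = bs blk u := rfl
  rw [h3]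
  have := (bs_pos blk u).ne'
  field_simp

end ev

/-- ST: the stage lemma -/
theorem main (h1 : S_merge) (h2 : S_damage) (h3 : S_near) : S_stage := by
  intro V K ι _ _ _ _ Θ W w blk M a g c hst hΘ s1 s2 s' δ κ m f b w2 hs1 hs1' hs2 hs2' hs12 hδ hκ hm
    hκw hw20 hww hf hb hsb hw
  have hΘ0 : 0 ≤ Θ := by linarith
  set Z := ev W (fun _ => 1) with hZ
  set DB := Θ * (2 * s') * (Fintype.card V * (2 * s' * m + f)) * Z with hDB
  have hdam : ∀ s, 0 ≤ s → s ≤ s' → ev W (fun ω => ∑ i ∈ range M,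
      cnt fun v => s ≤ len (g i ω) v ∧ len (g (i + 1) ω) v < s) ≤ M * DB := by
    intro s hs hss
    rw [ev_sum]
    calc ∑ i ∈ range M, ev W (fun ω => cnt fun v => s ≤ len (g i ω) v ∧ len (g (i + 1) ω) v < s)
        ≤ ∑ i ∈ range M, DB := by
          refine sum_le_sum fun i hi => ?_
          exact damage h2 h3 hst hΘ0 hs hss hm hw20 hww hf ⟨i, mem_range.1 hi⟩
      _ = M * DB := by rw [sum_const, card_range, nsmul_eq_mul]
  have hal := alive h1 hst hΘ hs1 hs1' hs12 hδ hκ hκw hb hsb hw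
  have hmain : ev W (fun ω => cnt fun v => s1 ≤ len (g 0 ω) v ∧ len (g M ω) v < s') ≤
      ev W (fun ω => ∑ i ∈ range M, cnt fun v => s1 ≤ len (g i ω) v ∧ len (g (i + 1) ω) v < s1) +
      ev W (fun ω => ∑ i ∈ range M, cnt fun v => s' ≤ len (g i ω) v ∧ len (g (i + 1) ω) v < s') +
      ev W (fun ω => ∑ v, UU g blk s1 s2 s' δ M v ω) +
      ev W (fun ω => cnt fun v => s1 ≤ len (g 0 ω) v ∧
        (cnt fun u => blk u = blk v ∧ s2 ≤ len (g 0 ω) u) < 2 * δ * cnt fun u => blk u = blk v) +
      ev W (fun ω => 1 / δ * ∑ i ∈ range M,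
        cnt fun v => s2 ≤ len (g i ω) v ∧ len (g (i + 1) ω) v < s2) := by
    rw [← ev_add, ← ev_add, ← ev_add, ← ev_add]
    refine ev_mono hst.W_nonneg fun ω _ => ?_
    have h4 : ∀ s : ℝ, ∑ i ∈ range M, (cnt fun v => s ≤ len (g i ω) v ∧ len (g (i + 1) ω) v < s) =
        ∑ v, ∑ i ∈ range M, ind (s ≤ len (g i ω) v ∧ len (g (i + 1) ω) v < s) := fun s => sum_comm
    have h5 : 1 / δ * ∑ i ∈ range M,
        (cnt fun v => s2 ≤ len (g i ω) v ∧ len (g (i + 1) ω) v < s2) =
        ∑ v, (∑ i ∈ range M, ∑ u, ind (blk u = blk v) *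
          ind (s2 ≤ len (g i ω) u ∧ len (g (i + 1) ω) u < s2)) / (δ * bs blk v) := by
      rw [h4, ← sum_block blk, mul_sum]
      refine sum_congr rfl fun v _ => ?_
      have h6 : ∑ i ∈ range M, ∑ u, ind (blk u = blk v) *
          ind (s2 ≤ len (g i ω) u ∧ len (g (i + 1) ω) u < s2) =
          ∑ u, ind (blk u = blk v) * ∑ i ∈ range M,
            ind (s2 ≤ len (g i ω) u ∧ len (g (i + 1) ω) u < s2) := by
        rw [sum_comm]
        exact sum_congr rfl fun u _ => (mul_sum _ _ _).symm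
      rw [h6]
      field_simp
    rw [h4, h4, h5, cnt_eq, cnt_eq, ← sum_add_distrib, ← sum_add_distrib, ← sum_add_distrib,
      ← sum_add_distrib]
    refine sum_le_sum fun v _ => ?_
    exact pointwise (fun i => g i ω) blk hδ M v
  have e1 := hdam s1 hs1.le hs1'
  have e2 := hdam s' (by linarith) le_rfl
  have e3 := hdam s2 hs2.le hs2'
  have e4 : ev W (fun ω => ∑ v, UU g blk s1 s2 s' δ M v ω) ≤
      Fintype.card V * (Real.exp (-(M * κ * s1 * δ * b / (4 * Θ))) * Z) := by
    rw [ev_sum]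
    calc ∑ v, ev W (UU g blk s1 s2 s' δ M v)
        ≤ ∑ _v : V, Real.exp (-(M * κ * s1 * δ * b / (4 * Θ))) * Z := sum_le_sum fun v _ => hal v
      _ = _ := by rw [sum_const, card_univ, nsmul_eq_mul]
  rw [ev_const_mul] at hmain
  have e5 : 1 / δ * ev W (fun ω => ∑ i ∈ range M,
        cnt fun v => s2 ≤ len (g i ω) v ∧ len (g (i + 1) ω) v < s2) ≤ 1 / δ * (M * DB) :=
    mul_le_mul_of_nonneg_left e3 (by positivity)
  have e6 : ((2 + 1 / δ) * (Θ * M * (2 * s') * (Fintype.card V * (2 * s' * m + f))) +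
        Fintype.card V * Real.exp (-(M * κ * s1 * δ * b / (4 * Θ)))) * Z =
      M * DB + M * DB + Fintype.card V * (Real.exp (-(M * κ * s1 * δ * b / (4 * Θ))) * Z) +
        1 / δ * (M * DB) := by
    rw [hDB]
    ring
  rw [e6]
  linarith

end Pool.Agent.W368.LR
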